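import Pool.Agent.Helper67.NX2.Defs
import Pool.Agent.Helper5.NX.Basic

/-!
# Project NX2, NX2-A1b: elementary facts about mixed systems, dual functions, block functions
-/

set_option autoImplicit false

open Finset
open scoped BigOperators ComplexConjugate

namespace Pool.Agent.Helper67.NX2

open Pool.Agent.Helper57.NX

noncomputable section

section IGBasic
variable {N : ℕ} [NeZero N]

omit [NeZero N] in
theorem good_mono40 {m : ℕ} {S : Sys m} {c : Fin m → ℝ} {x x' : ℝ} (h : Good S c N x)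
    (hx : x ≤ x') (hD : 1 ≤ S.D) : Good S c N x' where
  ρ0 := h.ρ0
  ρ1 := h.ρ1
  Q1 := h.Q1
  Q2 := h.Q2
  P1 i := by
    refine le_trans (mul_le_mul_of_nonneg_left ?_ (Nat.cast_nonneg _)) (h.P1 i)
    exact Real.rpow_le_rpow_of_exponent_le hD (by linarith)
  P2 i := by
    refine (h.P2 i).trans (mul_le_mul_of_nonneg_left ?_ (Nat.cast_nonneg _))
    exact Real.rpow_le_rpow_of_exponent_le hD (by linarith)
  N1 i := by
    refine (h.N1 i).trans (mul_le_mul_of_nonneg_left ?_ (Nat.cast_nonneg _))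
    exact Real.rpow_le_rpow_of_exponent_le hD hx
  N2 := h.N2
  u1 := h.u1
  u2 := h.u2
  T1 := (Real.rpow_le_rpow_of_exponent_le hD (by linarith)).trans h.T1

theorem Ex.strictMono {m : ℕ} {c : Fin m → ℝ} (h : Ex c) : StrictMono c := by
  intro i j hij
  have := h.gap i j hij
  linarith

theorem Ex.init {m : ℕ} {c : Fin (m + 1) → ℝ} (h : Ex c) : Ex (fun i : Fin m => c i.castSucc) :=
  ⟨fun i => h.two _, fun _ _ hij => h.gap _ _ (Fin.castSucc_lt_castSucc_iff.2 hij)⟩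

theorem IG.mono {m : ℕ} {S : Sys m} {c : Fin m → ℝ} {N : ℕ} {x x' : ℝ} {lam : ℕ}
    (h : IG S c N x lam) (hx : x ≤ x') (hD : 1 ≤ S.D) : IG S c N x' lam :=
  ⟨good_mono40 h.good hx hD,
    h.Q3.trans (Real.rpow_le_rpow_of_exponent_le hD (by linarith)), h.lam1, h.rho, h.Pint, h.prime⟩

theorem IG.init {m : ℕ} {S : Sys (m + 1)} {c : Fin (m + 1) → ℝ} {N : ℕ} {x : ℝ} {lam : ℕ}
    (h : IG S c N x lam) : IG S.init (fun i => c i.castSucc) N x lam where
  good :=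
    { ρ0 := h.good.ρ0
      ρ1 := h.good.ρ1
      Q1 := h.good.Q1
      Q2 := h.good.Q2
      P1 := fun i => h.good.P1 i.castSucc
      P2 := fun i => h.good.P2 i.castSucc
      N1 := fun i => h.good.N1 i.castSucc
      N2 := h.good.N2
      u1 := h.good.u1
      u2 := h.good.u2
      T1 := h.good.T1 }
  Q3 := h.Q3
  lam1 := h.lam1
  rho := h.rho
  Pint := fun i d hd => h.Pint i.castSucc d hd
  prime := h.prime

theorem IG.sub {m : ℕ} {S : Sys m} {c : Fin m → ℝ} {N : ℕ} {x x' : ℝ} {lam : ℕ}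
    (h : IG S c N x lam) (hx : x ≤ x') (hD : 1 ≤ S.D) (u T : ℕ) (hu : S.u ≤ u)
    (hT : u + T ≤ S.u + S.T) (hT' : S.D ^ (1 - x') ≤ T) : IG (S.sub u T) c N x' lam := by
  have h' := h.mono hx hD
  refine ⟨⟨h'.good.ρ0, h'.good.ρ1, h'.good.Q1, h'.good.Q2, h'.good.P1, h'.good.P2, h'.good.N1,
    h'.good.N2, ?_, ?_, hT'⟩, h'.Q3, h'.lam1, h'.rho, h'.Pint, h'.prime⟩
  · have h1 : (S.u : ℝ) ≤ u := by exact_mod_cast hu
    exact h.good.u1.trans h1
  · have h1 : (u : ℝ) + T ≤ S.u + S.T := by exact_mod_cast hT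
    exact h1.trans h.good.u2

/-- change of the modulus -/
theorem IG.modulus {m : ℕ} {S : Sys m} {c : Fin m → ℝ} {N N' : ℕ} {x x' : ℝ} {lam : ℕ}
    (h : IG S c N x lam) (hx : x ≤ x') (hD : 1 ≤ S.D) (hN : ∀ i, S.P i ≤ N' * S.D ^ x')
    (hp : ∃ p : ℕ, p.Prime ∧ N' = S.Q * p) : IG S c N' x' lam := by
  have h' := h.mono hx hD
  refine ⟨⟨h'.good.ρ0, h'.good.ρ1, h'.good.Q1, h'.good.Q2, h'.good.P1, h'.good.P2, hN, ?_,
    h'.good.u1, h'.good.u2, h'.good.T1⟩, h'.Q3, h'.lam1, h'.rho, h'.Pint, hp⟩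
  obtain ⟨p, hp1, rfl⟩ := hp
  exact_mod_cast Nat.le_mul_of_pos_right _ hp1.pos

/-- the sequences at natural exponents -/
theorem a_nat {m : ℕ} {S : Sys m} {c : Fin m → ℝ} {x : ℝ} {lam : ℕ} (h : IG S c N x lam)
    (hD : 0 < S.D) {r : ℕ} (hr : S.ρ * lam = r) (i : Fin m) (d : ℕ) (hd : c i = d) (k : ℕ) :
    S.a c i k = (S.Q : ℤ) * ((lam * k + r : ℕ) : ℤ) ^ d := by
  have h1 : S.P i * (S.t k) ^ (c i) = (((S.Q : ℤ) * ((lam * k + r : ℕ) : ℤ) ^ d : ℤ) : ℝ) := by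
    rw [h.Pint i d hd, hd, Real.rpow_natCast, mul_assoc, ← mul_pow]
    have h2 : (lam : ℝ) * S.D * S.t k = lam * k + r := by
      unfold Sys.t
      rw [← hr]
      field_simp
    rw [h2]
    push_cast
    ring
  unfold Sys.a
  rw [h1, Int.floor_intCast]

theorem stp_nat (Q q : ℕ) {γ : ℝ} (h : IsN γ) : stp Q q γ = Q * q := by
  unfold stp
  rw [if_pos h]

theorem stp_not (Q q : ℕ) {γ : ℝ} (h : ¬ IsN γ) : stp Q q γ = 1 := by
  unfold stp
  rw [if_neg h]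

/-- dual functions are admissible -/
theorem Adm.dual {m : ℕ} {B X : ℝ} (hX : 0 < X) (S : Sys m) (c : Fin m → ℝ) (h : ℕ → ℂ)
    (hh : ∀ k, ‖h k‖ ≤ 1) {f0 : ZMod N → ℂ} {f : Fin m → ZMod N → ℂ} (i : Fin m)
    (h0 : Adm B X f0) (hf : ∀ j, j ≠ i → Adm B X (f j)) (hI : S.I.Nonempty) :
    Adm (m * B) X (dual S c h f0 f i) := by
  -- the functions under the average
  set g : ℕ → ZMod N → ℂ := fun k x => f0 (x - (S.a c i k : ZMod N)) *
    ∏ j ∈ univ.erase i, f j (x - (S.a c i k : ZMod N) + (S.a c j k : ZMod N)) with hg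
  have hgA : ∀ k, Adm (m * B) X (g k) := by
    intro k
    have h1 : Adm B X (fun x => f0 (x - (S.a c i k : ZMod N))) := by
      simpa only [sub_eq_add_neg] using h0.shift (-(S.a c i k : ZMod N))
    have h2 : Adm (∑ j ∈ univ.erase i, B) X (fun x => ∏ j ∈ univ.erase i,
        f j (x - (S.a c i k : ZMod N) + (S.a c j k : ZMod N))) := by
      refine Adm.prod _ hX fun j hj => ?_
      have h3 := (hf j (ne_of_mem_erase hj)).shift
        (-(S.a c i k : ZMod N) + (S.a c j k : ZMod N))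
      simpa only [sub_eq_add_neg, add_assoc] using h3
    have h4 := h1.mul h2
    have h5 : B + ∑ j ∈ univ.erase i, B = m * B := by
      have hm : 1 ≤ m := Fin.pos i
      rw [sum_const, card_erase_of_mem (mem_univ _), card_univ, Fintype.card_fin, nsmul_eq_mul,
        Nat.cast_sub hm]
      push_cast
      ring
    rw [h5] at h4
    exact h4
  have hform : Pool.Agent.Helper57.NX.dual S c h f0 f i = fun x => 𝔼 k ∈ S.I, h k * g k x := rfl
  rw [hform]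
  refine ⟨fun x => ?_, fun x l => ?_⟩
  · refine norm_expect_le_of5 _ _ zero_le_one fun k _ => ?_
    rw [norm_mul]
    exact mul_le_one₀ (hh k) (norm_nonneg _) ((hgA k).bdd x)
  · refine sum_expect_le5 S.I (fun k y => h k * g k y) ((hgA 0).tv.rhs_nonneg5 l) x l
      fun k _ => ?_
    refine le_trans ((hgA k).tv.smul (h k) x l) ?_
    rw [mul_assoc]
    exact mul_le_of_le_one_left ((hgA k).tv.rhs_nonneg5 l) (hh k)

omit [NeZero N] in
theorem blk_natCast40 {p : ℕ} {Q : ℕ} (hN : N = Q * p) (G : ZMod p → ℂ) (n : ℕ) :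
    blk (N := N) Q G ((n : ℕ) : ZMod N) = G ((n / Q : ℕ) : ZMod p) := by
  unfold blk
  rw [ZMod.val_natCast, hN, Nat.mod_mul_right_div_self, ZMod.natCast_mod]

theorem blk_adm {p : ℕ} [NeZero p] {Q : ℕ} (hQ : 1 ≤ Q) (hN : N = Q * p) {G : ZMod p → ℂ}
    (hG : ∀ y, ‖G y‖ ≤ 1) : Adm 2 Q (blk (N := N) Q G) := by
  have hQ0 : (0 : ℝ) < Q := by exact_mod_cast hQ
  refine ⟨fun x => hG _, fun x l => ?_⟩
  -- reduce to natural numbers
  obtain ⟨n, rfl⟩ : ∃ n : ℕ, (n : ZMod N) = x := ⟨x.val, ZMod.natCast_zmod_val x⟩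
  have h1 : ∀ j : ℕ, ‖blk Q G ((n : ZMod N) + (j : ZMod N) + 1) -
      blk Q G ((n : ZMod N) + (j : ZMod N))‖ ≤
      2 * (((n + (j + 1)) / Q : ℕ) : ℝ) - 2 * (((n + j) / Q : ℕ) : ℝ) := by
    intro j
    have e1 : (n : ZMod N) + (j : ZMod N) + 1 = ((n + (j + 1) : ℕ) : ZMod N) := by
      push_cast; ring
    have e2 : (n : ZMod N) + (j : ZMod N) = ((n + j : ℕ) : ZMod N) := by
      push_cast; ring
    rw [e1, e2, blk_natCast40 hN, blk_natCast40 hN]
    by_cases h : (n + (j + 1)) / Q = (n + j) / Q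
    · rw [h]
      simp
    · have h2 : (n + j) / Q ≤ (n + (j + 1)) / Q := Nat.div_le_div_right (by omega)
      have h3 : (n + j) / Q + 1 ≤ (n + (j + 1)) / Q := by omega
      have h4 : (((n + j) / Q : ℕ) : ℝ) + 1 ≤ (((n + (j + 1)) / Q : ℕ) : ℝ) := by
        exact_mod_cast h3
      refine (norm_sub_le _ _).trans ?_
      have h5 := hG (((n + (j + 1)) / Q : ℕ) : ZMod p)
      have h6 := hG (((n + j) / Q : ℕ) : ZMod p)
      linarith
  refine (sum_le_sum fun j _ => h1 j).trans ?_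
  rw [Finset.sum_range_sub (fun j : ℕ => 2 * (((n + j) / Q : ℕ) : ℝ)) l, add_zero]
  have h2 : (((n + l) / Q : ℕ) : ℝ) ≤ ((n + l : ℕ) : ℝ) / Q := Nat.cast_div_le
  have h3 : (n : ℝ) / Q ≤ ((n / Q : ℕ) : ℝ) + 1 := by
    rw [div_le_iff₀ hQ0]
    have := Nat.lt_div_mul_add hQ (a := n)
    have h4 : (n : ℝ) ≤ (n / Q : ℕ) * Q + Q := by exact_mod_cast this.le
    linarith
  have h5 : ((n + l : ℕ) : ℝ) / Q = n / Q + l / Q := by
    push_cast
    rw [add_div]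
  rw [h5] at h2
  linarith

theorem blk_add {p : ℕ} [NeZero p] {Q : ℕ} (hQ : 1 ≤ Q) (hN : N = Q * p) (G : ZMod p → ℂ)
    (x : ZMod N) (t : ℤ) : blk Q G (x + ((Q * t : ℤ) : ZMod N)) =
      blk Q (fun y => G (y + (t : ZMod p))) x := by
  obtain ⟨n, rfl⟩ : ∃ n : ℕ, (n : ZMod N) = x := ⟨x.val, ZMod.natCast_zmod_val x⟩
  obtain ⟨s, hs⟩ : ∃ s : ℕ, (s : ZMod p) = (t : ZMod p) :=
    ⟨(t : ZMod p).val, ZMod.natCast_zmod_val _⟩
  have h1 : ((Q * t : ℤ) : ZMod N) = ((Q * s : ℕ) : ZMod N) := by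
    have h2 : (p : ℤ) ∣ t - s := by
      rw [← ZMod.intCast_zmod_eq_zero_iff_dvd]
      push_cast
      rw [hs, sub_self]
    have h3 : (N : ℤ) ∣ (Q * t : ℤ) - ((Q * s : ℕ) : ℤ) := by
      rw [hN]
      push_cast
      rw [← mul_sub]
      exact mul_dvd_mul_left _ h2
    have h4 := (ZMod.intCast_zmod_eq_zero_iff_dvd _ N).2 h3
    rw [Int.cast_sub, sub_eq_zero, Int.cast_natCast] at h4
    exact h4
  rw [h1, ← Nat.cast_add, blk_natCast40 hN, blk_natCast40 hN, Nat.add_mul_div_left _ _ hQ,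
    Nat.cast_add, hs]

end IGBasic

end

end Pool.Agent.Helper67.NX2
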