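import Pool.Agent.Helper40.NX2.LsMajorOf
import Pool.Agent.Helper87.NX2.LargeSieve
import Pool.Agent.Helper7.NX2.Montgomery
import Pool.Agent.Helper84.NX2.RoughSum

/-!
# Project NX2, NX2-B5: the large sieve on small denominators, functions supported on primes
-/

set_option autoImplicit false

open Finset
open scoped BigOperators ComplexConjugate

namespace Pool.Agent.Helper67.NX2

open Pool.Agent.Helper57.NX

noncomputable section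

theorem ls_major : ∃ C : ℝ, 0 < C ∧ ∀ N0 N M c R Q0 : ℕ, 2 ≤ R → R ≤ N → 1 ≤ M → 1 ≤ Q0 →
    (M * Q0) ^ 16 ≤ N → (∀ p : ℕ, p.Prime → p ∣ M → p ≤ R) →
    ∀ P : Finset (ℕ × ℕ), (∀ x ∈ P, 1 ≤ x.1 ∧ x.1 ≤ Q0 ∧ Nat.Coprime x.1 M ∧
      ∀ p : ℕ, p.Prime → p ∣ x.1 → p ≤ R) →
    (∀ x ∈ P, ∀ y ∈ P, x ≠ y → ∀ m : ℤ, (x.2 : ℤ) * y.1 - y.2 * x.1 ≠ m * (x.1 * y.1)) →
    ∀ f : ℕ → ℝ, (∀ y, f y ≠ 0 → y.Prime ∧ N ≤ y ^ 4) →
    ∑ x ∈ P, ‖∑ y ∈ (Ico N0 (N0 + N)).filter (fun y => y ≡ c [MOD M]),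
        (f y : ℂ) * e ((x.2 : ℝ) / x.1 * y)‖ ^ 2 ≤
      C * (Real.log R / Real.log N) * (N / M) *
        ∑ y ∈ (Ico N0 (N0 + N)).filter (fun y => y ≡ c [MOD M]), f y ^ 2 :=
  LsMajor.ls_major_of large_sieve montgomery rough_sum

end

end Pool.Agent.Helper67.NX2
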