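import Pool.Agent.Helper67.NX2.DefsB
import Pool.Agent.Helper5.NX.Basic

/-!
# Project NX2, NX2-B5: the large sieve on small denominators, functions supported on primes
(conditional on B1, B2, B3)
-/

set_option autoImplicit false

open Finset
open scoped BigOperators ComplexConjugate

namespace Pool.Agent.Helper67.NX2

open Pool.Agent.Helper57.NX

noncomputable section

namespace LsMajor

/-- B1 -/
def LargeSieve : Prop := ∃ C : ℝ, 0 < C ∧ ∀ (N0 N : ℕ) (Δ : ℝ), 1 ≤ N → 0 < Δ → Δ ≤ 1 →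
    ∀ P : Finset ℝ, (∀ α ∈ P, ∀ β ∈ P, α ≠ β → Δ ≤ dint (α - β)) → ∀ a : ℕ → ℂ,
    ∑ α ∈ P, ‖∑ n ∈ Ico N0 (N0 + N), a n * e (α * n)‖ ^ 2 ≤
      C * (N + 1 / Δ) * ∑ n ∈ Ico N0 (N0 + N), ‖a n‖ ^ 2

/-- B2 -/
def Montgomery : Prop := ∀ (r : ℕ) (_ : Squarefree r) (S : Finset ℕ) (a : ℕ → ℂ)
    (_ : ∀ n ∈ S, a n ≠ 0 → Nat.Coprime n r) (α : ℝ),
    ‖∑ n ∈ S, a n * e (α * n)‖ ^ 2 ≤ r.totient *
      ∑ c ∈ (range r).filter (fun c => Nat.Coprime c r),
        ‖∑ n ∈ S, a n * e ((α + c / r) * n)‖ ^ 2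

/-- the rough numbers -/
def RR (R Y : ℕ) : Finset ℕ :=
  (Icc 1 Y).filter (fun r => Squarefree r ∧ ∀ p ∈ r.primeFactors, R < p)

/-- B3 -/
def RoughSum : Prop := ∃ c : ℝ, 0 < c ∧ ∀ R Y : ℕ, 2 ≤ R → 2 ≤ Y →
    c * Real.log Y / Real.log R ≤
      ∑ r ∈ (Icc 1 Y).filter (fun r => Squarefree r ∧ ∀ p ∈ r.primeFactors, R < p),
        (1 : ℝ) / r.totient

/-- lower bound for the distance to the integers of a fraction -/
theorem dint_frac_ge {u : ℤ} {D : ℕ} (hD : 1 ≤ D) (h : ¬ (D : ℤ) ∣ u) :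
    1 / (D : ℝ) ≤ dint ((u : ℝ) / D) := by
  have hD0 : (0 : ℝ) < D := by exact_mod_cast hD
  unfold dint
  set r := round ((u : ℝ) / D)
  have h1 : (u : ℝ) / D - r = ((u - D * r : ℤ) : ℝ) / D := by
    push_cast
    field_simp
  rw [h1, abs_div, abs_of_pos hD0]
  refine div_le_div_of_nonneg_right ?_ hD0.le
  have h2 : u - D * r ≠ 0 := by
    intro h3
    exact h ⟨r, by linarith⟩
  have h3 := Int.one_le_abs h2
  rw [← Int.cast_abs]
  exact_mod_cast h3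

/-- reindexing the residue class -/
theorem reidx {α : Type} [AddCommMonoid α] (N0 N M c : ℕ) (hM : 1 ≤ M) (g : ℕ → α) :
    ∑ y ∈ (Ico N0 (N0 + N)).filter (fun y => y ≡ c [MOD M]), g y =
      ∑ n ∈ Ico (N0 / M) (N0 / M + (N / M + 2)),
        if c % M + M * n ∈ (Ico N0 (N0 + N)).filter (fun y => y ≡ c [MOD M]) then
          g (c % M + M * n) else 0 := by
  rw [← sum_filter]
  refine sum_nbij' (fun y => y / M) (fun n => c % M + M * n) ?_ ?_ ?_ ?_ ?_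
  · intro y hy
    rw [mem_filter, mem_Ico] at hy
    obtain ⟨⟨h1, h2⟩, h3⟩ := hy
    have h4 : c % M + M * (y / M) = y := by
      have : y % M = c % M := h3
      rw [← this]
      exact Nat.mod_add_div y M
    rw [mem_filter, mem_Ico, h4, mem_filter, mem_Ico]
    refine ⟨⟨Nat.div_le_div_right h1, ?_⟩, ⟨h1, h2⟩, h3⟩
    rw [Nat.div_lt_iff_lt_mul hM]
    have h5 := Nat.lt_div_mul_add hM (a := N0)
    have h6 := Nat.lt_div_mul_add hM (a := N)
    calc y < N0 + N := h2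
      _ ≤ (N0 / M * M + M) + (N / M * M + M) := by omega
      _ = (N0 / M + (N / M + 2)) * M := by ring
  · intro n hn
    exact (mem_filter.1 hn).2
  · intro y hy
    rw [mem_filter, mem_Ico] at hy
    have : y % M = c % M := hy.2
    show c % M + M * (y / M) = y
    rw [← this]
    exact Nat.mod_add_div y M
  · intro n hn
    show (c % M + M * n) / M = n
    rw [Nat.add_mul_div_left _ _ hM, Nat.div_eq_of_lt (Nat.mod_lt _ hM), zero_add]
  · intro y hy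
    rw [mem_filter, mem_Ico] at hy
    have : y % M = c % M := hy.2
    show g y = g (c % M + M * (y / M))
    rw [← this, Nat.mod_add_div y M]

/-- the index set -/
def T (P : Finset (ℕ × ℕ)) (R Y : ℕ) : Finset ((ℕ × ℕ) × (Σ _ : ℕ, ℕ)) :=
  P ×ˢ ((RR R Y).sigma fun r => (range r).filter (fun c => Nat.Coprime c r))

/-- the point -/
def pt (M : ℕ) (t : (ℕ × ℕ) × (Σ _ : ℕ, ℕ)) : ℝ :=
  M * ((t.1.2 : ℝ) / t.1.1 + (t.2.2 : ℝ) / t.2.1)

theorem coprime_of_rough {q s R : ℕ} (hq : ∀ p : ℕ, p.Prime → p ∣ q → p ≤ R)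
    (hs : ∀ p : ℕ, p.Prime → p ∣ s → R < p) : Nat.Coprime q s := by
  refine Nat.coprime_of_dvd fun p hp h1 h2 => ?_
  have h3 := hq p hp h1
  have h4 := hs p hp h2
  omega

theorem mem_RR {R Y r : ℕ} (h : r ∈ RR R Y) : 1 ≤ r ∧ r ≤ Y ∧ Squarefree r ∧
    ∀ p : ℕ, p.Prime → p ∣ r → R < p := by
  unfold RR at h
  rw [mem_filter, mem_Icc] at h
  refine ⟨h.1.1, h.1.2, h.2.1, fun p hp hd => h.2.2 p ?_⟩
  rw [Nat.mem_primeFactors]
  exact ⟨hp, hd, by omega⟩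

/-- the key separation -/
theorem pt_sep {M R Q0 Y : ℕ} (hM : 1 ≤ M) (hMR : ∀ p : ℕ, p.Prime → p ∣ M → p ≤ R)
    {P : Finset (ℕ × ℕ)} (hP : ∀ x ∈ P, 1 ≤ x.1 ∧ x.1 ≤ Q0 ∧ Nat.Coprime x.1 M ∧
      ∀ p : ℕ, p.Prime → p ∣ x.1 → p ≤ R)
    (hPd : ∀ x ∈ P, ∀ y ∈ P, x ≠ y → ∀ m : ℤ, (x.2 : ℤ) * y.1 - y.2 * x.1 ≠ m * (x.1 * y.1))
    {t t' : (ℕ × ℕ) × (Σ _ : ℕ, ℕ)} (ht : t ∈ T P R Y) (ht' : t' ∈ T P R Y) (hne : t ≠ t') :
    1 / ((Q0 : ℝ) ^ 2 * Y ^ 2) ≤ dint (pt M t - pt M t') := by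
  obtain ⟨⟨q, a⟩, ⟨r, b⟩⟩ := t
  obtain ⟨⟨q', a'⟩, ⟨r', b'⟩⟩ := t'
  unfold T at ht ht'
  rw [mem_product, mem_sigma, mem_filter, mem_range] at ht ht'
  obtain ⟨hx, hr, hbr, hb⟩ := ht
  obtain ⟨hx', hr', hbr', hb'⟩ := ht'
  simp only at hx hr hbr hb hx' hr' hbr' hb'
  obtain ⟨hr1, hrY, -, hrR⟩ := mem_RR hr
  obtain ⟨hr1', hrY', -, hrR'⟩ := mem_RR hr'
  obtain ⟨hq1, hqQ, hqM, hqR⟩ := hP _ hx
  obtain ⟨hq1', hqQ', hqM', hqR'⟩ := hP _ hx'
  simp only at hq1 hqQ hqM hqR hq1' hqQ' hqM' hqR'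
  set D : ℕ := (q * q') * (r * r') with hD
  set w : ℤ := ((a : ℤ) * q' - a' * q) * (r * r') + ((b : ℤ) * r' - b' * r) * (q * q') with hw
  have hD1 : 1 ≤ D := by
    rw [hD]
    exact Nat.one_le_iff_ne_zero.2 (by positivity)
  have hq0 : (q : ℝ) ≠ 0 := by positivity
  have hq0' : (q' : ℝ) ≠ 0 := by positivity
  have hr0 : (r : ℝ) ≠ 0 := by positivity
  have hr0' : (r' : ℝ) ≠ 0 := by positivity
  have e1 : pt M ((q, a), ⟨r, b⟩) - pt M ((q', a'), ⟨r', b'⟩) = ((M * w : ℤ) : ℝ) / D := by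
    unfold pt
    rw [hD, hw]
    push_cast
    field_simp
    ring
  rw [e1]
  -- coprimality
  have hcop : Nat.Coprime (q * q') (r * r') := by
    refine coprime_of_rough (R := R) ?_ ?_
    · intro p hp hd
      rcases hp.dvd_mul.1 hd with h | h
      · exact hqR p hp h
      · exact hqR' p hp h
    · intro p hp hd
      rcases hp.dvd_mul.1 hd with h | h
      · exact hrR p hp h
      · exact hrR' p hp h
  have hcopM : Nat.Coprime D M := by
    rw [hD]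
    refine Nat.Coprime.mul_left (Nat.Coprime.mul_left hqM hqM') ?_
    refine (coprime_of_rough (R := R) hMR ?_).symm
    intro p hp hd
    rcases hp.dvd_mul.1 hd with h | h
    · exact hrR p hp h
    · exact hrR' p hp h
  have hnd : ¬ (D : ℤ) ∣ M * w := by
    intro hdvd
    have h1 : (D : ℤ) ∣ w := by
      refine IsCoprime.dvd_of_dvd_mul_left ?_ hdvd
      exact Nat.isCoprime_iff_coprime.2 hcopM
    have h2 : ((q * q' : ℕ) : ℤ) ∣ w := by
      refine dvd_trans ?_ h1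
      rw [hD]
      exact_mod_cast dvd_mul_right (q * q') (r * r')
    have h3 : ((r * r' : ℕ) : ℤ) ∣ w := by
      refine dvd_trans ?_ h1
      rw [hD]
      exact_mod_cast dvd_mul_left (r * r') (q * q')
    have h4 : ((q * q' : ℕ) : ℤ) ∣ (a : ℤ) * q' - a' * q := by
      have h5 : ((q * q' : ℕ) : ℤ) ∣ ((a : ℤ) * q' - a' * q) * ((r * r' : ℕ) : ℤ) := by
        have h6 : ((a : ℤ) * q' - a' * q) * ((r * r' : ℕ) : ℤ) =
            w - ((b : ℤ) * r' - b' * r) * ((q * q' : ℕ) : ℤ) := by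
          rw [hw]; push_cast; ring
        rw [h6]
        exact dvd_sub h2 (dvd_mul_left _ _)
      exact IsCoprime.dvd_of_dvd_mul_right (Nat.isCoprime_iff_coprime.2 hcop) h5
    have h5 : ((r * r' : ℕ) : ℤ) ∣ (b : ℤ) * r' - b' * r := by
      have h5 : ((r * r' : ℕ) : ℤ) ∣ ((b : ℤ) * r' - b' * r) * ((q * q' : ℕ) : ℤ) := by
        have h6 : ((b : ℤ) * r' - b' * r) * ((q * q' : ℕ) : ℤ) =
            w - ((a : ℤ) * q' - a' * q) * ((r * r' : ℕ) : ℤ) := by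
          rw [hw]; push_cast; ring
        rw [h6]
        exact dvd_sub h3 (dvd_mul_left _ _)
      exact IsCoprime.dvd_of_dvd_mul_right (Nat.isCoprime_iff_coprime.2 hcop.symm) h5
    -- x = x'
    have hxx : ((q, a) : ℕ × ℕ) = (q', a') := by
      by_contra hne'
      obtain ⟨m, hm⟩ := h4
      refine hPd _ hx _ hx' hne' m ?_
      simp only
      rw [hm]
      push_cast
      ring
    -- r = r'
    have hrr : r ∣ r' := by
      have h6 : (r : ℤ) ∣ (b : ℤ) * r' := by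
        have h7 : (r : ℤ) ∣ (b : ℤ) * r' - b' * r :=
          dvd_trans (by exact_mod_cast dvd_mul_right r r') h5
        have h8 : (b : ℤ) * r' = ((b : ℤ) * r' - b' * r) + b' * r := by ring
        rw [h8]
        exact dvd_add h7 (dvd_mul_left _ _)
      have h9 : r ∣ b * r' := by exact_mod_cast h6
      exact (Nat.Coprime.symm hb).dvd_of_dvd_mul_left h9
    have hrr' : r' ∣ r := by
      have h6 : (r' : ℤ) ∣ (b' : ℤ) * r := by
        have h7 : (r' : ℤ) ∣ (b : ℤ) * r' - b' * r :=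
          dvd_trans (by exact_mod_cast dvd_mul_left r' r) h5
        have h8 : (b' : ℤ) * r = (b : ℤ) * r' - ((b : ℤ) * r' - b' * r) := by ring
        rw [h8]
        exact dvd_sub (dvd_mul_left _ _) h7
      have h9 : r' ∣ b' * r := by exact_mod_cast h6
      exact (Nat.Coprime.symm hb').dvd_of_dvd_mul_left h9
    have hreq : r = r' := Nat.dvd_antisymm hrr hrr'
    subst hreq
    have hbb : b = b' := by
      have h6 : ((r * r : ℕ) : ℤ) ∣ ((b : ℤ) - b') * r := by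
        have : ((b : ℤ) - b') * r = (b : ℤ) * r - b' * r := by ring
        rw [this]
        exact h5
      have h7 : (r : ℤ) ∣ (b : ℤ) - b' := by
        push_cast at h6
        exact Int.dvd_of_mul_dvd_mul_right (by exact_mod_cast (show r ≠ 0 by omega)) h6
      have h8 : (b : ℤ) - b' = 0 := by
        refine Int.eq_zero_of_abs_lt_dvd h7 ?_
        rw [abs_lt]
        constructor <;> omega
      omega
    subst hbb
    rw [hxx] at hne
    exact hne rfl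
  refine le_trans ?_ (dint_frac_ge hD1 hnd)
  refine one_div_le_one_div_of_le (by positivity) ?_
  rw [hD]
  push_cast
  have h1 : (q : ℝ) ≤ Q0 := by exact_mod_cast hqQ
  have h2 : (q' : ℝ) ≤ Q0 := by exact_mod_cast hqQ'
  have h3 : (r : ℝ) ≤ Y := by exact_mod_cast hrY
  have h4 : (r' : ℝ) ≤ Y := by exact_mod_cast hrY'
  rw [sq, sq]
  have hQ : (0 : ℝ) ≤ Q0 := Nat.cast_nonneg _
  have hY : (0 : ℝ) ≤ Y := Nat.cast_nonneg _
  exact mul_le_mul (mul_le_mul h1 h2 (by positivity) hQ) (mul_le_mul h3 h4 (by positivity) hY)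
    (by positivity) (by positivity)

theorem Y_lt_of {N Y y : ℕ} (hY : 2 ≤ Y) (hYN : Y ^ 8 ≤ N) (h : N ≤ y ^ 4) : Y < y := by
  by_contra hlt
  push Not at hlt
  have h1 : y ^ 4 ≤ Y ^ 4 := Nat.pow_le_pow_left hlt 4
  have h2 : Y ^ 4 < Y ^ 8 := Nat.pow_lt_pow_right (by omega) (by norm_num)
  omega

/-- the main inequality, with a parameter `Y` -/
theorem main {C1 : ℝ} (hC1 : 0 < C1)
    (hLS : ∀ (N0 N : ℕ) (Δ : ℝ), 1 ≤ N → 0 < Δ → Δ ≤ 1 →
      ∀ P : Finset ℝ, (∀ α ∈ P, ∀ β ∈ P, α ≠ β → Δ ≤ dint (α - β)) → ∀ a : ℕ → ℂ,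
      ∑ α ∈ P, ‖∑ n ∈ Ico N0 (N0 + N), a n * e (α * n)‖ ^ 2 ≤
        C1 * (N + 1 / Δ) * ∑ n ∈ Ico N0 (N0 + N), ‖a n‖ ^ 2)
    (hMo : Montgomery) {N0 N M c R Q0 Y : ℕ} (hM : 1 ≤ M) (hQ0 : 1 ≤ Q0)
    (hN : (M * Q0) ^ 16 ≤ N) (hY : 1 ≤ Y) (hYN : Y ^ 8 ≤ N)
    (hMR : ∀ p : ℕ, p.Prime → p ∣ M → p ≤ R)
    {P : Finset (ℕ × ℕ)} (hP : ∀ x ∈ P, 1 ≤ x.1 ∧ x.1 ≤ Q0 ∧ Nat.Coprime x.1 M ∧
      ∀ p : ℕ, p.Prime → p ∣ x.1 → p ≤ R)
    (hPd : ∀ x ∈ P, ∀ y ∈ P, x ≠ y → ∀ m : ℤ, (x.2 : ℤ) * y.1 - y.2 * x.1 ≠ m * (x.1 * y.1))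
    {f : ℕ → ℝ} (hf : ∀ y, f y ≠ 0 → y.Prime ∧ N ≤ y ^ 4) :
    (∑ x ∈ P, ‖∑ y ∈ (Ico N0 (N0 + N)).filter (fun y => y ≡ c [MOD M]),
        (f y : ℂ) * e ((x.2 : ℝ) / x.1 * y)‖ ^ 2) * ∑ r ∈ RR R Y, (1 : ℝ) / r.totient ≤
      C1 * (4 * (N / M)) *
        ∑ y ∈ (Ico N0 (N0 + N)).filter (fun y => y ≡ c [MOD M]), f y ^ 2 := by
  set S := (Ico N0 (N0 + N)).filter (fun y => y ≡ c [MOD M]) with hS
  set SS : ℝ → ℝ := fun α => ‖∑ y ∈ S, (f y : ℂ) * e (α * y)‖ ^ 2 with hSS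
  set a' : ℕ → ℂ := fun n => if c % M + M * n ∈ S then (f (c % M + M * n) : ℂ) else 0 with ha'
  set I' := Ico (N0 / M) (N0 / M + (N / M + 2)) with hI'
  set G : ℝ → ℝ := fun α => ‖∑ n ∈ I', a' n * e (α * n)‖ ^ 2 with hG
  have hM0 : (0 : ℝ) < M := by exact_mod_cast hM
  have hY0 : (0 : ℝ) < Y := by exact_mod_cast hY
  have hQ00 : (0 : ℝ) < Q0 := by exact_mod_cast hQ0
  -- sizes
  have hMQ : 1 ≤ M * Q0 := Nat.one_le_iff_ne_zero.2 (by positivity)
  have hN1 : 1 ≤ N := le_trans (Nat.one_le_pow _ _ hMQ) hN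
  have hMN : M ≤ N := by
    calc M ≤ M * Q0 := Nat.le_mul_of_pos_right _ hQ0
      _ ≤ (M * Q0) ^ 16 := Nat.le_self_pow (by norm_num) _
      _ ≤ N := hN
  -- Montgomery
  have h1 : ∀ x ∈ P, SS ((x.2 : ℝ) / x.1) * ∑ r ∈ RR R Y, (1 : ℝ) / r.totient ≤
      ∑ r ∈ RR R Y, ∑ b ∈ (range r).filter (fun b => Nat.Coprime b r),
        SS ((x.2 : ℝ) / x.1 + b / r) := by
    intro x _
    rw [mul_sum]
    refine sum_le_sum fun r hr => ?_
    obtain ⟨hr1, hrY, hrs, -⟩ := mem_RR hr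
    have hco : ∀ n ∈ S, ((f n : ℝ) : ℂ) ≠ 0 → Nat.Coprime n r := by
      intro n _ hn
      have hn' : f n ≠ 0 := by
        intro h
        exact hn (by rw [h, Complex.ofReal_zero])
      obtain ⟨hp, h4⟩ := hf n hn'
      rcases Nat.eq_or_lt_of_le hr1 with h | h
      · rw [← h]
        exact Nat.coprime_one_right n
      · have h5 : Y < n := Y_lt_of (by omega) hYN h4
        have h6 : r < n := by omega
        have h7 : r ≠ 0 := by omega
        have h8 := Nat.coprime_of_lt_prime h7 h6 hp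
        exact h8
    have h2 := hMo r hrs S (fun y => (f y : ℂ)) hco ((x.2 : ℝ) / x.1)
    have hφ : (0 : ℝ) < r.totient := by exact_mod_cast Nat.totient_pos.2 (by omega)
    rw [mul_one_div, div_le_iff₀ hφ, mul_comm]
    exact h2
  -- reindexing
  have h2 : ∀ β : ℝ, SS β = G (M * β) := by
    intro β
    simp only [hSS, hG]
    congr 1
    have e1 := reidx N0 N M c hM (fun y => (f y : ℂ) * e (β * y))
    rw [← hS] at e1
    rw [e1]
    have e2 : ∀ n : ℕ, (if c % M + M * n ∈ S then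
        (f (c % M + M * n) : ℂ) * e (β * ((c % M + M * n : ℕ) : ℝ)) else 0) =
        e (β * ((c % M : ℕ) : ℝ)) * (a' n * e (M * β * n)) := by
      intro n
      simp only [ha']
      split_ifs
      · have e3 : β * ((c % M + M * n : ℕ) : ℝ) = β * ((c % M : ℕ) : ℝ) + M * β * n := by
          push_cast
          ring
        rw [e3, e_add]
        ring
      · simp
    rw [sum_congr rfl (fun n _ => e2 n), ← mul_sum, norm_mul, norm_e, one_mul]
  -- the sum over the index set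
  have h3 : ∑ x ∈ P, ∑ r ∈ RR R Y, ∑ b ∈ (range r).filter (fun b => Nat.Coprime b r),
        SS ((x.2 : ℝ) / x.1 + b / r) = ∑ t ∈ T P R Y, G (pt M t) := by
    unfold T
    rw [sum_product]
    refine sum_congr rfl fun x _ => ?_
    rw [sum_sigma]
    refine sum_congr rfl fun r _ => sum_congr rfl fun b _ => ?_
    rw [h2]
    rfl
  have hinj : Set.InjOn (pt M) (T P R Y : Set ((ℕ × ℕ) × (Σ _ : ℕ, ℕ))) := by
    intro t ht t' ht' heq
    by_contra hne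
    have h4 := pt_sep hM hMR hP hPd (mem_coe.1 ht) (mem_coe.1 ht') hne
    rw [heq, sub_self] at h4
    have h5 : dint 0 = 0 := by simp [dint]
    rw [h5] at h4
    have : 0 < 1 / ((Q0 : ℝ) ^ 2 * Y ^ 2) := by positivity
    linarith
  have h4 : ∑ t ∈ T P R Y, G (pt M t) = ∑ α ∈ (T P R Y).image (pt M), G α := by
    rw [sum_image hinj]
  have h5 : ∑ α ∈ (T P R Y).image (pt M), G α ≤
      C1 * (((N / M + 2 : ℕ) : ℝ) + 1 / (1 / ((Q0 : ℝ) ^ 2 * Y ^ 2))) * ∑ n ∈ I', ‖a' n‖ ^ 2 := by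
    refine hLS (N0 / M) (N / M + 2) (1 / ((Q0 : ℝ) ^ 2 * Y ^ 2))
      (le_trans (by norm_num) (Nat.le_add_left 2 (N / M))) (by positivity) ?_
      ((T P R Y).image (pt M)) ?_ a'
    · rw [div_le_one (by positivity)]
      have h6 : (1 : ℝ) ≤ Q0 := by exact_mod_cast hQ0
      have h7 : (1 : ℝ) ≤ Y := by exact_mod_cast hY
      nlinarith [one_le_pow₀ h6 (n := 2), one_le_pow₀ h7 (n := 2)]
    · intro α hα β hβ hne
      obtain ⟨t, ht, rfl⟩ := mem_image.1 hα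
      obtain ⟨t', ht', rfl⟩ := mem_image.1 hβ
      exact pt_sep hM hMR hP hPd ht ht' (fun h => hne (by rw [h]))
  have h6 : ∑ n ∈ I', ‖a' n‖ ^ 2 = ∑ y ∈ S, f y ^ 2 := by
    have e1 := reidx N0 N M c hM (fun y => f y ^ 2)
    rw [← hS, ← hI'] at e1
    rw [e1]
    refine sum_congr rfl fun n _ => ?_
    simp only [ha']
    split_ifs
    · rw [Complex.norm_real, Real.norm_eq_abs, sq_abs]
    · simp
  have h7 : ((N / M + 2 : ℕ) : ℝ) + 1 / (1 / ((Q0 : ℝ) ^ 2 * Y ^ 2)) ≤ 4 * (N / M) := by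
    have e1 : ((N / M : ℕ) : ℝ) ≤ (N : ℝ) / M := Nat.cast_div_le
    have e2 : (1 : ℝ) ≤ (N : ℝ) / M := by
      rw [le_div_iff₀ hM0, one_mul]
      exact_mod_cast hMN
    have e3 : (Q0 : ℝ) ^ 2 * Y ^ 2 ≤ (N : ℝ) / M := by
      rw [le_div_iff₀ hM0]
      have e4 : Q0 ^ 2 * Y ^ 2 * M ≤ N := by
        by_contra hlt
        push Not at hlt
        have e5 : N ^ 8 < (Q0 ^ 2 * Y ^ 2 * M) ^ 8 := Nat.pow_lt_pow_left hlt (by norm_num)
        have e6 : (Q0 ^ 2 * Y ^ 2 * M) ^ 8 ≤ N ^ 3 := by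
          calc (Q0 ^ 2 * Y ^ 2 * M) ^ 8 = Q0 ^ 16 * M ^ 8 * (Y ^ 8) ^ 2 := by ring
            _ ≤ Q0 ^ 16 * M ^ 16 * (Y ^ 8) ^ 2 := by
                refine Nat.mul_le_mul_right _ (Nat.mul_le_mul_left _ ?_)
                exact Nat.pow_le_pow_right hM (by norm_num)
            _ = (M * Q0) ^ 16 * (Y ^ 8) ^ 2 := by ring
            _ ≤ N * N ^ 2 := Nat.mul_le_mul hN (Nat.pow_le_pow_left hYN 2)
            _ = N ^ 3 := by ring
        have e7 : N ^ 3 ≤ N ^ 8 := Nat.pow_le_pow_right hN1 (by norm_num)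
        omega
      exact_mod_cast e4
    rw [one_div_one_div]
    push_cast
    linarith
  have h8 : 0 ≤ ∑ y ∈ S, f y ^ 2 := sum_nonneg fun _ _ => sq_nonneg _
  calc (∑ x ∈ P, SS ((x.2 : ℝ) / x.1)) * ∑ r ∈ RR R Y, (1 : ℝ) / r.totient
      = ∑ x ∈ P, SS ((x.2 : ℝ) / x.1) * ∑ r ∈ RR R Y, (1 : ℝ) / r.totient := by
        rw [sum_mul]
    _ ≤ ∑ x ∈ P, ∑ r ∈ RR R Y, ∑ b ∈ (range r).filter (fun b => Nat.Coprime b r),
        SS ((x.2 : ℝ) / x.1 + b / r) := sum_le_sum h1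
    _ ≤ C1 * (((N / M + 2 : ℕ) : ℝ) + 1 / (1 / ((Q0 : ℝ) ^ 2 * Y ^ 2))) *
        ∑ n ∈ I', ‖a' n‖ ^ 2 := by rw [h3, h4]; exact h5
    _ ≤ _ := by
        rw [h6]
        exact mul_le_mul_of_nonneg_right (mul_le_mul_of_nonneg_left h7 hC1.le) h8

/-- B5 -/
theorem ls_major_of (hLS : LargeSieve) (hMo : Montgomery) (hRS : RoughSum) :
    ∃ C : ℝ, 0 < C ∧ ∀ N0 N M c R Q0 : ℕ, 2 ≤ R → R ≤ N → 1 ≤ M → 1 ≤ Q0 →
    (M * Q0) ^ 16 ≤ N → (∀ p : ℕ, p.Prime → p ∣ M → p ≤ R) →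
    ∀ P : Finset (ℕ × ℕ), (∀ x ∈ P, 1 ≤ x.1 ∧ x.1 ≤ Q0 ∧ Nat.Coprime x.1 M ∧
      ∀ p : ℕ, p.Prime → p ∣ x.1 → p ≤ R) →
    (∀ x ∈ P, ∀ y ∈ P, x ≠ y → ∀ m : ℤ, (x.2 : ℤ) * y.1 - y.2 * x.1 ≠ m * (x.1 * y.1)) →
    ∀ f : ℕ → ℝ, (∀ y, f y ≠ 0 → y.Prime ∧ N ≤ y ^ 4) →
    ∑ x ∈ P, ‖∑ y ∈ (Ico N0 (N0 + N)).filter (fun y => y ≡ c [MOD M]),
        (f y : ℂ) * e ((x.2 : ℝ) / x.1 * y)‖ ^ 2 ≤
      C * (Real.log R / Real.log N) * (N / M) *
        ∑ y ∈ (Ico N0 (N0 + N)).filter (fun y => y ≡ c [MOD M]), f y ^ 2 := by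
  obtain ⟨C1, hC1, hLS⟩ := hLS
  obtain ⟨c1, hc1, hRS⟩ := hRS
  refine ⟨64 * C1 * (1 + 1 / c1), by positivity, ?_⟩
  intro N0 N M c R Q0 hR hRN hM hQ0 hN hMR P hP hPd f hf
  have hM0 : (0 : ℝ) < M := by exact_mod_cast hM
  have hlR : 0 < Real.log R := Real.log_pos (by exact_mod_cast (show 1 < R by omega))
  have hlN : 0 < Real.log N := Real.log_pos (by exact_mod_cast (show 1 < N by omega))
  set S := (Ico N0 (N0 + N)).filter (fun y => y ≡ c [MOD M]) with hS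
  set X := ∑ x ∈ P, ‖∑ y ∈ S, (f y : ℂ) * e ((x.2 : ℝ) / x.1 * y)‖ ^ 2 with hX
  have hX0 : 0 ≤ X := sum_nonneg fun _ _ => sq_nonneg _
  have h8 : 0 ≤ ∑ y ∈ S, f y ^ 2 := sum_nonneg fun _ _ => sq_nonneg _
  set F := ((N : ℝ) / M) * ∑ y ∈ S, f y ^ 2 with hF
  have hF0 : 0 ≤ F := by positivity
  rw [mul_assoc _ ((N : ℝ) / M), ← hF]
  rcases lt_or_ge N (2 ^ 16) with hsmall | hbig
  · have h1 := main (R := R) (c := c) (N0 := N0) hC1 hLS hMo hM hQ0 hN (le_refl 1)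
      (by rw [one_pow]; omega) hMR hP hPd hf
    rw [← hS, ← hX] at h1
    have h2 : ∑ r ∈ RR R 1, (1 : ℝ) / r.totient = 1 := by
      have : RR R 1 = {1} := by
        unfold RR
        ext r
        rw [mem_filter, mem_Icc, mem_singleton]
        constructor
        · intro h
          omega
        · rintro rfl
          simp
      rw [this]
      simp
    rw [h2, mul_one] at h1
    have h3 : (1 : ℝ) / 16 ≤ Real.log R / Real.log N := by
      rw [le_div_iff₀ hlN]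
      have h4 : Real.log N ≤ 16 * Real.log 2 := by
        have h5 : Real.log N ≤ Real.log ((2 : ℝ) ^ 16) := by
          refine Real.log_le_log (by exact_mod_cast (show 0 < N by omega)) ?_
          exact_mod_cast hsmall.le
        rw [Real.log_pow] at h5
        exact_mod_cast h5
      have h5 : Real.log 2 ≤ Real.log R := Real.log_le_log (by norm_num) (by exact_mod_cast hR)
      linarith
    calc X ≤ C1 * (4 * (N / M)) * ∑ y ∈ S, f y ^ 2 := h1
      _ = 64 * C1 * (1 / 16) * F := by rw [hF]; ring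
      _ ≤ 64 * C1 * (Real.log R / Real.log N) * F := by
          refine mul_le_mul_of_nonneg_right (mul_le_mul_of_nonneg_left h3 (by positivity)) hF0
      _ ≤ 64 * C1 * (1 + 1 / c1) * (Real.log R / Real.log N) * F := by
          refine mul_le_mul_of_nonneg_right (mul_le_mul_of_nonneg_right ?_ (by positivity)) hF0
          have : 0 < 1 / c1 := by positivity
          nlinarith
  · -- large N
    obtain ⟨Y, hY1, hY2⟩ : ∃ Y : ℕ, Y ^ 8 ≤ N ∧ N < (Y + 1) ^ 8 := by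
      have h1 := Nat.findGreatest_spec (P := fun Y => Y ^ 8 ≤ N) (m := 0) (n := N) (by omega)
        (by simp)
      refine ⟨Nat.findGreatest (fun Y => Y ^ 8 ≤ N) N, h1, ?_⟩
      by_contra hlt
      push Not at hlt
      have h2 : Nat.findGreatest (fun Y => Y ^ 8 ≤ N) N + 1 ≤ N :=
        (Nat.le_self_pow (by norm_num) _).trans hlt
      have h3 := Nat.le_findGreatest (P := fun Y => Y ^ 8 ≤ N) h2 hlt
      omega
    have hY4 : 4 ≤ Y := by
      by_contra h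
      push Not at h
      have h1 : (Y + 1) ^ 8 ≤ 4 ^ 8 := Nat.pow_le_pow_left (by omega) 8
      have h2 : (4 : ℕ) ^ 8 = 2 ^ 16 := by norm_num
      omega
    have h1 := main (R := R) (c := c) (N0 := N0) hC1 hLS hMo hM hQ0 hN (show 1 ≤ Y by omega)
      hY1 hMR hP hPd hf
    rw [← hS, ← hX] at h1
    have h2 := hRS R Y hR (by omega)
    have h3 : Real.log N / 16 ≤ Real.log Y := by
      have h4 : N ≤ Y ^ 16 := by
        calc N ≤ (Y + 1) ^ 8 := hY2.le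
          _ ≤ (Y ^ 2) ^ 8 := by
              refine Nat.pow_le_pow_left ?_ 8
              nlinarith
          _ = Y ^ 16 := by ring
      have h5 : Real.log N ≤ Real.log ((Y : ℝ) ^ 16) := by
        refine Real.log_le_log (by exact_mod_cast (show 0 < N by omega)) ?_
        exact_mod_cast h4
      rw [Real.log_pow] at h5
      push_cast at h5
      linarith
    have h4 : X * (c1 * (Real.log N / 16) / Real.log R) ≤ 4 * C1 * F := by
      calc X * (c1 * (Real.log N / 16) / Real.log R)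
          ≤ X * ∑ r ∈ RR R Y, (1 : ℝ) / r.totient := by
            refine mul_le_mul_of_nonneg_left (le_trans ?_ h2) hX0
            exact div_le_div_of_nonneg_right (mul_le_mul_of_nonneg_left h3 hc1.le) hlR.le
        _ ≤ C1 * (4 * (N / M)) * ∑ y ∈ S, f y ^ 2 := h1
        _ = 4 * C1 * F := by rw [hF]; ring
    have h5 : X ≤ 64 * C1 * (1 / c1) * (Real.log R / Real.log N) * F := by
      have h6 : X * (c1 * (Real.log N / 16) / Real.log R) * (16 * Real.log R / (c1 * Real.log N)) =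
          X := by
        field_simp
      rw [← h6]
      calc X * (c1 * (Real.log N / 16) / Real.log R) * (16 * Real.log R / (c1 * Real.log N))
          ≤ 4 * C1 * F * (16 * Real.log R / (c1 * Real.log N)) :=
            mul_le_mul_of_nonneg_right h4 (by positivity)
        _ = 64 * C1 * (1 / c1) * (Real.log R / Real.log N) * F := by
            field_simp
            ring
    refine h5.trans ?_
    refine mul_le_mul_of_nonneg_right (mul_le_mul_of_nonneg_right ?_ (by positivity)) hF0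
    refine mul_le_mul_of_nonneg_left ?_ (by positivity)
    linarith

end LsMajor

end

end Pool.Agent.Helper67.NX2
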